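import Pool.Agent.Y722.HS.Sec2
import Pool.Agent.Y722.HS.LSum
import Mathlib.FieldTheory.Finite.GaloisField
import Mathlib.FieldTheory.Separable

/-!
# Products of Jacobians of hyperelliptic curves

`C_i : y² = f_i(x)`, `i < k`, are hyperelliptic curves over `ℚ` with `f_i` monic of degree `2 g_i + 1` with
integer coefficients `c ⟨i, j⟩`, `j ≤ 2 g_i`, and `A_c` is the abelian variety `∏ J(C_i)^{ν_i}`.
-/

set_option autoImplicit false

namespace Pool.Agent.K7.H53.JA

open Finset Pool.Agent.Y722.HS Polynomial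

/-- The monic polynomial of degree `n` with the lower coefficients `c`. -/
noncomputable def poly {R : Type} [CommRing R] {n : ℕ} (c : Fin n → R) : R[X] :=
  X ^ n + ∑ j : Fin n, C (c j) * X ^ (j : ℕ)

/-- The number of the affine points of `y² = f(x)` with coordinates in `R`. -/
noncomputable def aff (R : Type) [CommRing R] {n : ℕ} (c : Fin n → R) : ℕ :=
  Nat.card {P : R × R // P.2 ^ 2 = P.1 ^ n + ∑ j : Fin n, c j * P.1 ^ (j : ℕ)}

/-- The trace of the Frobenius at `p` on `H¹` of the curve `y² = f(x)`, `f` of odd degree: it is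
`p + 1` minus the number of the points over `𝔽_p`, and there is one point at infinity. -/
noncomputable def tr1 (p : ℕ) {n : ℕ} (c : Fin n → ZMod p) : ℝ := (p : ℝ) - aff (ZMod p) c

/-- The trace of the square of the Frobenius at `p` on `H¹` of the curve `y² = f(x)`: it is
`p² + 1` minus the number of the points over the field with `p²` elements. -/
noncomputable def tr2 (p : ℕ) [Fact p.Prime] {n : ℕ} (c : Fin n → ZMod p) : ℝ :=
  (p : ℝ) ^ 2 - aff (GaloisField p 2) (fun j => algebraMap (ZMod p) (GaloisField p 2) (c j))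

/-- The indices of the coefficients. -/
abbrev Idx {k : ℕ} (g : Fin k → ℕ) : Type := Σ i : Fin k, Fin (2 * g i + 1)

/-- The trace of the Frobenius at `p` on `H² = Λ² H¹` of the abelian variety `∏ J(C_i)^{ν_i}`, if all
the curves have good reduction at `p`. -/
noncomputable def trH2 {k : ℕ} {g : Fin k → ℕ} (ν : Fin k → ℕ) (p : ℕ) [Fact p.Prime]
    (c : Idx g → ZMod p) : ℝ :=
  ((∑ i, ν i * tr1 p (fun j => c ⟨i, j⟩)) ^ 2 - ∑ i, ν i * tr2 p (fun j => c ⟨i, j⟩)) / 2

/-- `γ p j`, `j < b₂`, are the eigenvalues of the geometric Frobenius at `p` on the inertia invariants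
of `H²` of the abelian variety `A_c = ∏ J(C_i)^{ν_i}`, zeros added if necessary: `|γ p j| ≤ p` for all
primes `p`, and if `p ≠ 2` and all `f_i` are separable modulo `p` (so that the curves and `A_c` have
good reduction at `p`), then `∑ γ p j` is the trace of the Frobenius on
`H²(A_c) = Λ² (⊕ H¹(C_i)^{ν_i})`. -/
structure IsFrobenius {k : ℕ} {g : Fin k → ℕ} (ν : Fin k → ℕ) (b₂ : ℕ) (c : Idx g → ℤ)
    (γ : ℕ → Fin b₂ → ℂ) : Prop where
  bound : ∀ p : ℕ, p.Prime → ∀ j, ‖γ p j‖ ≤ p
  trace : ∀ (p : ℕ) [Fact p.Prime], p ≠ 2 →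
    (∀ i, (poly (fun j => ((c ⟨i, j⟩ : ℤ) : ZMod p))).Separable) →
      ∑ j, γ p j = (trH2 ν p (red p c) : ℂ)

/-- The Picard number `∑ ν_i (ν_i + 1) / 2` of the product of the `J(C_i)^{ν_i}`, if the endomorphism
rings of the `J(C_i)` are `ℤ` and there are no homomorphisms between different `J(C_i)`. -/
noncomputable def rk {k : ℕ} (ν : Fin k → ℕ) : ℝ := ∑ i, (ν i : ℝ) * (ν i + 1) / 2

end Pool.Agent.K7.H53.JA
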