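import Pool.Agent.K7.H53.JA.Mom
import Pool.Agent.K7.H53.EL.Surf
import Mathlib.RingTheory.Polynomial.Resultant.Basic

/-!
# Products of Jacobians of hyperelliptic curves: `L₂(s)` near `s = 2`
-/

set_option autoImplicit false

namespace Pool.Agent.K7.H53.JA

open Finset Pool.Agent.Y722.HS Polynomial

section disc
variable {k : ℕ} {g : Fin k → ℕ}

theorem poly_monic {R : Type} [CommRing R] {n : ℕ} (c : Fin n → R) : (poly c).Monic := by
  nontriviality R
  unfold poly
  refine Polynomial.monic_X_pow_add ?_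
  refine (Polynomial.degree_sum_le _ _).trans_lt ?_
  rw [Finset.sup_lt_iff (WithBot.bot_lt_coe _)]
  intro j _
  refine (Polynomial.degree_C_mul_X_pow_le _ _).trans_lt ?_
  exact_mod_cast j.2

theorem poly_map {R S : Type} [CommRing R] [CommRing S] (φ : R →+* S) {n : ℕ} (c : Fin n → R) :
    (poly c).map φ = poly fun j => φ (c j) := by
  unfold poly
  simp [Polynomial.map_sum]

/-- The discriminant of `f_i` up to sign, as a polynomial in the coefficients. -/
noncomputable def Di (i : Fin k) : MvPolynomial (Idx g) ℤ :=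
  (poly fun j : Fin (2 * g i + 1) => (MvPolynomial.X ⟨i, j⟩ : MvPolynomial (Idx g) ℤ)).resultant
    (derivative (poly fun j : Fin (2 * g i + 1) =>
      (MvPolynomial.X ⟨i, j⟩ : MvPolynomial (Idx g) ℤ))) (2 * g i + 1) (2 * g i)

theorem Di_ne (i : Fin k) {S : Type} [Field S] (φ : MvPolynomial (Idx g) ℤ →+* S) :
    φ (Di i) ≠ 0 ↔ (poly fun j : Fin (2 * g i + 1) => φ (MvPolynomial.X ⟨i, j⟩)).Separable := by
  unfold Di
  rw [← resultant_map_map, ← Polynomial.derivative_map, poly_map]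
  set f : S[X] := poly fun j : Fin (2 * g i + 1) => φ (MvPolynomial.X ⟨i, j⟩) with hf
  have hm : f.Monic := poly_monic _
  have hd : f.natDegree = 2 * g i + 1 := odd_poly _ _
  have hd' : (derivative f).natDegree ≤ 2 * g i := by
    have := natDegree_derivative_le f
    omega
  obtain ⟨l, hl⟩ := Nat.exists_eq_add_of_le hd'
  have e : resultant f (derivative f) (2 * g i + 1) (2 * g i) =
      resultant f (derivative f) (2 * g i + 1) ((derivative f).natDegree + l) :=
    congrArg (fun t : ℕ => resultant f (derivative f) (2 * g i + 1) t) hl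
  rw [e, resultant_add_right_deg _ _ _ _ _ le_rfl, ← hd, hm.coeff_natDegree, one_pow, one_mul]
  rw [← isUnit_iff_ne_zero]
  exact isUnit_resultant_iff_isCoprime hm

/-- The product of the discriminants. -/
noncomputable def DD : MvPolynomial (Idx g) ℤ := ∏ i, Di i

/-- The coefficients of the polynomials `x^n - 1`. -/
def c00 : Idx g → ℤ := fun q => if (q.2 : ℕ) = 0 then -1 else 0

theorem DD_c0 : MvPolynomial.eval (c00 (g := g)) (DD (g := g)) ≠ 0 := by
  unfold DD
  rw [map_prod, Finset.prod_ne_zero_iff]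
  intro i _
  have h := (Di_ne (g := g) i ((Int.castRingHom ℚ).comp (MvPolynomial.eval (c00 (g := g))))).2 (by
    have e : (poly fun j : Fin (2 * g i + 1) =>
        ((Int.castRingHom ℚ).comp (MvPolynomial.eval (c00 (g := g)))) (MvPolynomial.X ⟨i, j⟩)) =
        X ^ (2 * g i + 1) - C (1 : ℚ) := by
      unfold poly
      rw [sub_eq_add_neg]
      congr 1
      rw [Finset.sum_eq_single (⟨0, by omega⟩ : Fin (2 * g i + 1))]
      · simp [c00]
      · intro j _ hj
        have h3 : (j : ℕ) ≠ 0 := fun h => hj (Fin.ext (by simpa using h))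
        simp [c00, h3]
      · simp
    rw [e]
    refine separable_X_pow_sub_C (1 : ℚ) ?_ one_ne_zero
    exact_mod_cast (by omega : 2 * g i + 1 ≠ 0))
  intro h0
  apply h
  rw [RingHom.comp_apply, h0, map_zero]

theorem DD_sep (c : Idx g → ℤ) (p : ℕ) [hp : Fact p.Prime]
    (h : ¬ (p : ℤ) ∣ MvPolynomial.eval c (DD (g := g))) (i : Fin k) :
    (poly (fun j => ((c ⟨i, j⟩ : ℤ) : ZMod p))).Separable := by
  have h1 := (Di_ne (g := g) i ((Int.castRingHom (ZMod p)).comp (MvPolynomial.eval c))).1 (by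
    intro h0
    apply h
    rw [RingHom.comp_apply] at h0
    have h2 : (p : ℤ) ∣ MvPolynomial.eval c (Di i) :=
      (ZMod.intCast_zmod_eq_zero_iff_dvd _ _).1 h0
    refine h2.trans ?_
    unfold DD
    rw [map_prod]
    exact Finset.dvd_prod_of_mem _ (Finset.mem_univ i))
  have e : (fun j : Fin (2 * g i + 1) => ((Int.castRingHom (ZMod p)).comp (MvPolynomial.eval c))
      (MvPolynomial.X ⟨i, j⟩)) = fun j => ((c ⟨i, j⟩ : ℤ) : ZMod p) := by
    funext j
    simp
  rw [e] at h1
  exact h1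

end disc

section
variable {k : ℕ} {g : Fin k → ℕ}

open Classical in
/-- The deviation for all `p`. -/
noncomputable def Tf (ν : Fin k → ℕ) (p : ℕ) (c : Idx g → ZMod p) : ℝ :=
  if h : p.Prime then (haveI : Fact p.Prime := ⟨h⟩; trH2 ν p c - rk ν * p) else 0

theorem Tf_eq (ν : Fin k → ℕ) (p : ℕ) [hp : Fact p.Prime] :
    Tf (g := g) ν p = fun c => trH2 ν p c - rk ν * p := by
  funext c
  unfold Tf
  rw [dif_pos hp.out]

/-- **Products of Jacobians.** -/
theorem main (hg : ∀ i, 1 ≤ g i) (ν : Fin k → ℕ) (b₂ : ℕ) :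
    ∃ C : ℝ, ∀ H : ℕ, 2 ≤ H → ∀ S ⊆ box (Idx g) H,
      ∀ (γ : (Idx g → ℤ) → ℕ → Fin b₂ → ℂ) (ε : (Idx g → ℤ) → ℝ),
      (∀ c ∈ S, IsFrobenius ν b₂ c (γ c)) →
      (∀ c ∈ S, 1 / Real.log H ≤ ε c ∧ ε c ≤ 1) →
      ∑ c ∈ S, (Real.log ‖LP (γ c) (2 + ε c)‖ - rk ν * Real.log (1 / ε c)) ^ 2 ≤
        C * (box (Idx g) H).card := by
  have hr := rk_nonneg ν
  have hK := KG_nonneg (g := g) ν
  obtain ⟨C, hC⟩ := Pool.Agent.K7.H53.EL.surf 5 (Tf (g := g) ν) (rk ν + KG g ν ^ 2) (by positivity)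
    (fun p _ hp => by
      rw [Tf_eq]
      refine (mean_trH2 hp hg ν).trans ?_
      have : 0 ≤ KG g ν ^ 2 := by positivity
      linarith) (fun p _ hp => by
      rw [Tf_eq]
      refine (sq_trH2 hp ν).trans ?_
      gcongr
      linarith) (DD (g := g)) c00 DD_c0 (rk ν) hr b₂
  refine ⟨C, fun H hH S hS γ ε hγ hε => hC H hH S hS γ ε (fun c hc => ⟨(hγ c hc).bound, ?_⟩) hε⟩
  intro p hpF hp hnd
  rw [(hγ c hc).trace p (by omega) (fun i => DD_sep c p hnd i), Tf_eq]
  congr 1
  ring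

end

end Pool.Agent.K7.H53.JA
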