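import Pool.Agent.K7.H53.JA.Defs
import Pool.Agent.X280.BP.Conic
import Pool.Agent.H126T.Field

/-!
# Products of Jacobians of hyperelliptic curves: moments modulo a prime
-/

set_option autoImplicit false
set_option linter.unusedSectionVars false

namespace Pool.Agent.K7.H53.JA

open Finset Pool.Agent.Y722.HS Pool.Agent.X280.BP Polynomial

section field
variable {F : Type} [Field F] [Fintype F] [DecidableEq F]

theorem aff_eq (hF : ringChar F ≠ 2) {n : ℕ} (c : Fin n → F) :
    (aff F c : ℝ) = Fintype.card F +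
      ∑ x : F, ((quadraticChar F (x ^ n + ∑ j : Fin n, c j * x ^ (j : ℕ)) : ℤ) : ℝ) := by
  have e : {P : F × F // P.2 ^ 2 = P.1 ^ n + ∑ j : Fin n, c j * P.1 ^ (j : ℕ)} ≃
      (x : F) × {y : F // y ^ 2 = x ^ n + ∑ j : Fin n, c j * x ^ (j : ℕ)} :=
    { toFun := fun q => ⟨q.1.1, ⟨q.1.2, q.2⟩⟩
      invFun := fun q => ⟨(q.1, q.2.1), q.2.2⟩
      left_inv := fun q => rfl
      right_inv := fun q => rfl }
  unfold aff
  rw [Nat.card_congr e, Nat.card_eq_fintype_card, Fintype.card_sigma]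
  push_cast
  have h1 : ∀ x : F, (Fintype.card {y : F // y ^ 2 = x ^ n + ∑ j : Fin n, c j * x ^ (j : ℕ)} : ℝ) =
      1 + ((quadraticChar F (x ^ n + ∑ j : Fin n, c j * x ^ (j : ℕ)) : ℤ) : ℝ) := by
    intro x
    have h2 : (Fintype.card {y : F // y ^ 2 = x ^ n + ∑ j : Fin n, c j * x ^ (j : ℕ)} : ℤ) =
        1 + quadraticChar F (x ^ n + ∑ j : Fin n, c j * x ^ (j : ℕ)) := by
      rw [add_comm (1 : ℤ), ← quadraticChar_card_sqrts hF, Set.toFinset_card]
      congr 1
    exact_mod_cast h2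
  rw [sum_congr rfl fun x _ => h1 x, sum_add_distrib]
  simp

end field

section
variable {p : ℕ} [hp : Fact p.Prime]

section ext
variable {E : Type} [Field E] [Fintype E] [DecidableEq E] [Algebra (ZMod p) E]

/-- The quadratic character with real values. -/
noncomputable def ch2 (u : E) : ℝ := ((quadraticChar E u : ℤ) : ℝ)

theorem ringChar_GF (E : Type) [Field E] [Algebra (ZMod p) E] (h5 : 5 ≤ p) : ringChar E ≠ 2 := by
  rw [← Algebra.ringChar_eq (ZMod p) E]
  exact (char_ne (six_ne (p := p) h5)).2.2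

theorem sum_ch2 (hE : ringChar E ≠ 2) : ∑ u : E, ch2 u = 0 := by
  have e2 : ∑ u : E, ch2 u = ((∑ u : E, quadraticChar E u : ℤ) : ℝ) := by
    unfold ch2
    push_cast
    rfl
  rw [e2, quadraticChar_sum_zero hE]
  simp

/-- The elements of the prime field are squares. -/
theorem ch2_base (h5 : 5 ≤ p) (hc : Fintype.card E = p ^ 2) (u : ZMod p) :
    ch2 (algebraMap (ZMod p) E u) = ch u ^ 2 := by
  rw [ch_sq]
  by_cases hu : u = 0
  · rw [hu, map_zero]
    simp [ch2]
  · rw [if_neg hu, sub_zero]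
    have hne : algebraMap (ZMod p) E u ≠ 0 := by
      rwa [Ne, FaithfulSMul.algebraMap_eq_zero_iff]
    have h1 := quadraticChar_eq_pow_of_char_ne_two' (ringChar_GF E h5) (algebraMap (ZMod p) E u)
    have hodd : Odd p := hp.out.odd_of_ne_two (by omega)
    obtain ⟨l, hl⟩ := hodd
    have h2 : Fintype.card E / 2 = (p - 1) * (l + 1) := by
      rw [hc, hl]
      have : (2 * l + 1) ^ 2 = 2 * ((2 * l) * (l + 1)) + 1 := by ring
      rw [this]
      have e : 2 * l + 1 - 1 = 2 * l := by omega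
      rw [e]
      omega
    have h3 : (algebraMap (ZMod p) E u) ^ (Fintype.card E / 2) = 1 := by
      rw [h2, pow_mul, ← map_pow, ZMod.pow_card_sub_one_eq_one hu, map_one, one_pow]
    rw [h3] at h1
    have h4 : quadraticChar E (algebraMap (ZMod p) E u) = 1 := by
      rcases quadraticChar_dichotomy hne with h | h
      · exact h
      · rw [h] at h1
        exfalso
        push_cast at h1
        have h6 : (2 : E) = 0 := by linear_combination -h1
        have h7 : (algebraMap (ZMod p) E 2) = 0 := by rw [map_ofNat]; exact h6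
        rw [FaithfulSMul.algebraMap_eq_zero_iff] at h7
        exact two_ne (p := p) h5 h7
    unfold ch2
    rw [h4]
    norm_num

theorem bij_aux (hc : Fintype.card E = p ^ 2) (z : E) (hz : z ∉ Set.range (algebraMap (ZMod p) E)) :
    Function.Bijective fun q : ZMod p × ZMod p =>
      algebraMap (ZMod p) E q.1 + algebraMap (ZMod p) E q.2 * z := by
  rw [Fintype.bijective_iff_injective_and_card]
  refine ⟨?_, by rw [Fintype.card_prod, ZMod.card, hc]; ring⟩
  rintro ⟨s, t⟩ ⟨s', t'⟩ h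
  simp only at h
  have h1 : algebraMap (ZMod p) E (t - t') * z = algebraMap (ZMod p) E (s' - s) := by
    rw [map_sub, map_sub]
    linear_combination h
  by_cases ht : t = t'
  · subst ht
    have h2 : algebraMap (ZMod p) E (s' - s) = 0 := by
      rw [← h1, sub_self, map_zero, zero_mul]
    rw [FaithfulSMul.algebraMap_eq_zero_iff, sub_eq_zero] at h2
    rw [h2]
  · exfalso
    apply hz
    have hne : algebraMap (ZMod p) E (t - t') ≠ 0 := by
      rw [Ne, FaithfulSMul.algebraMap_eq_zero_iff]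
      exact sub_ne_zero.2 ht
    refine ⟨(s' - s) / (t - t'), ?_⟩
    rw [map_div₀, ← h1]
    field_simp

theorem sum_aux (h5 : 5 ≤ p) (hc : Fintype.card E = p ^ 2) (z : E)
    (hz : z ∉ Set.range (algebraMap (ZMod p) E)) (w : E) : ∑ t : ZMod p, ∑ s : ZMod p,
      ch2 (w + algebraMap (ZMod p) E t * z + algebraMap (ZMod p) E s) = 0 := by
  rw [Finset.sum_comm, ← Fintype.sum_prod_type', ← sum_ch2 (E := E) (ringChar_GF E h5)]
  refine Fintype.sum_bijective (fun q : ZMod p × ZMod p => w +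
    (algebraMap (ZMod p) E q.1 + algebraMap (ZMod p) E q.2 * z))
    ((Equiv.addLeft w).bijective.comp (bij_aux hc z hz)) _ _ fun q => ?_
  congr 1
  ring

end ext

variable {k : ℕ} {g : Fin k → ℕ}

/-- The value of `f_i` at `x`. -/
def val (i : Fin k) (x : ZMod p) (c : Idx g → ZMod p) : ZMod p :=
  x ^ (2 * g i + 1) + ∑ j : Fin (2 * g i + 1), c ⟨i, j⟩ * x ^ (j : ℕ)

/-- The value of `f_i` at an element of the field with `p²` elements. -/
noncomputable def val2 {E : Type} [Field E] [Algebra (ZMod p) E] (i : Fin k) (z : E)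
    (c : Idx g → ZMod p) : E :=
  z ^ (2 * g i + 1) + ∑ j : Fin (2 * g i + 1), algebraMap (ZMod p) E (c ⟨i, j⟩) * z ^ (j : ℕ)

theorem val2_base {E : Type} [Field E] [Algebra (ZMod p) E] (i : Fin k) (x : ZMod p)
    (c : Idx g → ZMod p) :
    val2 i (algebraMap (ZMod p) E x) c = algebraMap (ZMod p) E (val i x c) := by
  unfold val2 val
  rw [map_add, map_pow, map_sum]
  congr 1
  refine Finset.sum_congr rfl fun j _ => ?_
  rw [map_mul, map_pow]

theorem tr1_eq (h5 : 5 ≤ p) (i : Fin k) (c : Idx g → ZMod p) :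
    tr1 p (fun j => c ⟨i, j⟩) = -∑ x : ZMod p, ch (val i x c) := by
  unfold tr1
  rw [aff_eq (char_ne (six_ne (p := p) h5)).2.2, ZMod.card]
  unfold ch val
  ring

/-- The direction that moves the coefficients of `x^0` and `x^1` of `f_i`. -/
def dd (i : Fin k) (α β : ZMod p) : Idx g → ZMod p := fun q =>
  if q.1 = i then (if (q.2 : ℕ) = 0 then β else if (q.2 : ℕ) = 1 then α else 0) else 0

theorem lin_aux {R : Type} [CommRing R] {n : ℕ} (hn : 2 ≤ n) (α β x : R) :
    ∑ j : Fin n, (if (j : ℕ) = 0 then β else if (j : ℕ) = 1 then α else 0) * x ^ (j : ℕ) =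
      α * x + β := by
  have h2 : ∀ j : Fin n, (if (j : ℕ) = 0 then β else if (j : ℕ) = 1 then α else 0) *
      x ^ (j : ℕ) = (if j = ⟨0, by omega⟩ then β else 0) +
        (if j = ⟨1, by omega⟩ then α * x else 0) := by
    rintro ⟨j, hj⟩
    rcases j with _ | _ | j <;> simp
  simp only [h2, Finset.sum_add_distrib, Finset.sum_ite_eq', Finset.mem_univ, if_true]
  ring

theorem val_dd (hg : ∀ i, 1 ≤ g i) (i : Fin k) (α β x : ZMod p) (c : Idx g → ZMod p)
    (t : ZMod p) : val i x (c + t • dd i α β) = val i x c + t * (α * x + β) := by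
  unfold val
  have h := hg i
  rw [← lin_aux (n := 2 * g i + 1) (by omega) α β x, Finset.mul_sum, add_assoc,
    ← Finset.sum_add_distrib]
  congr 1
  refine Finset.sum_congr rfl fun j _ => ?_
  simp only [Pi.add_apply, Pi.smul_apply, smul_eq_mul, dd, if_true]
  ring

theorem val_dd_ne (i i' : Fin k) (hi : i' ≠ i) (α β x : ZMod p) (c : Idx g → ZMod p)
    (t : ZMod p) : val i' x (c + t • dd i α β) = val i' x c := by
  unfold val
  congr 1
  refine Finset.sum_congr rfl fun j _ => ?_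
  simp only [Pi.add_apply, Pi.smul_apply, smul_eq_mul, dd]
  rw [if_neg hi]
  ring

theorem val2_dd {E : Type} [Field E] [Algebra (ZMod p) E] (hg : ∀ i, 1 ≤ g i) (i : Fin k)
    (α β : ZMod p) (z : E) (c : Idx g → ZMod p) (t : ZMod p) :
    val2 i z (c + t • dd i α β) = val2 i z c +
      algebraMap (ZMod p) E t * (algebraMap (ZMod p) E α * z + algebraMap (ZMod p) E β) := by
  unfold val2
  have h := hg i
  rw [← lin_aux (n := 2 * g i + 1) (by omega) (algebraMap (ZMod p) E α)
    (algebraMap (ZMod p) E β) z, Finset.mul_sum, add_assoc, ← Finset.sum_add_distrib]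
  congr 1
  refine Finset.sum_congr rfl fun j _ => ?_
  simp only [Pi.add_apply, Pi.smul_apply, smul_eq_mul, dd, if_true, map_add, map_mul, apply_ite
    (algebraMap (ZMod p) E), map_zero]
  ring

theorem EM_fsum {J ι : Type} [Fintype ι] [DecidableEq ι] (s : Finset J)
    (f : J → (ι → ZMod p) → ℝ) :
    EM p (fun c => ∑ j ∈ s, f j c) = ∑ j ∈ s, EM p (f j) := by
  unfold EM
  rw [Finset.sum_comm, Finset.sum_div]

/-- The second moments of the traces on `H¹`. -/
theorem EM_tr1 (h5 : 5 ≤ p) (hg : ∀ i, 1 ≤ g i) (i i' : Fin k) :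
    |EM p (fun c : Idx g → ZMod p => tr1 p (fun j => c ⟨i, j⟩) * tr1 p (fun j => c ⟨i', j⟩)) -
      (if i = i' then (p : ℝ) else 0)| ≤ if i = i' then 1 else 0 := by
  have hp0 : (0 : ℝ) < p := p_pos'
  have e1 : (fun c : Idx g → ZMod p => tr1 p (fun j => c ⟨i, j⟩) * tr1 p (fun j => c ⟨i', j⟩)) =
      fun c => ∑ x : ZMod p, ∑ x' : ZMod p, ch (val i x c) * ch (val i' x' c) := by
    funext c
    rw [tr1_eq h5, tr1_eq h5, neg_mul_neg, Finset.sum_mul_sum]
  rw [e1, EM_fsum]
  simp only [EM_fsum]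
  by_cases hi : i = i'
  · subst hi
    rw [if_pos rfl, if_pos rfl]
    have e2 : ∀ x : ZMod p, ∑ x' : ZMod p, EM p (fun c : Idx g → ZMod p =>
        ch (val i x c) * ch (val i x' c)) =
        EM p (fun c : Idx g → ZMod p => ch (val i x c) * ch (val i x c)) := by
      intro x
      rw [Finset.sum_eq_single x]
      · intro x' _ hx
        have hne : x - x' ≠ 0 := sub_ne_zero.2 (Ne.symm hx)
        refine EM_zero_dir h5 (fun c : Idx g → ZMod p => val i x c)
          (fun c => ch (val i x' c)) (dd i (1 / (x - x')) (-x' / (x - x'))) 1 one_ne_zero ?_ ?_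
        · intro c t
          rw [val_dd hg]
          congr 2
          field_simp
          ring
        · intro c t
          rw [val_dd hg]
          congr 1
          field_simp
          ring
      · simp
    simp only [e2]
    have e3 : ∀ x : ZMod p, |EM p (fun c : Idx g → ZMod p => ch (val i x c) * ch (val i x c)) - 1| ≤
        1 / p := by
      intro x
      refine EM_chi_sq (fun c : Idx g → ZMod p => val i x c) (dd i 0 1) 1 one_ne_zero ?_
      intro c t
      rw [val_dd hg]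
      ring
    have e4 : (∑ x : ZMod p, EM p (fun c : Idx g → ZMod p => ch (val i x c) * ch (val i x c))) - p =
        ∑ x : ZMod p, (EM p (fun c : Idx g → ZMod p => ch (val i x c) * ch (val i x c)) - 1) := by
      rw [Finset.sum_sub_distrib, Finset.sum_const, Finset.card_univ, ZMod.card, nsmul_eq_mul,
        mul_one]
    rw [e4]
    refine (Finset.abs_sum_le_sum_abs _ _).trans ((Finset.sum_le_sum fun x _ => e3 x).trans ?_)
    rw [Finset.sum_const, Finset.card_univ, ZMod.card, nsmul_eq_mul]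
    refine le_of_eq ?_
    field_simp
  · rw [if_neg hi, if_neg hi, sub_zero]
    refine le_of_eq ?_
    rw [abs_eq_zero]
    refine Finset.sum_eq_zero fun x _ => Finset.sum_eq_zero fun x' _ => ?_
    refine EM_zero_dir h5 (fun c : Idx g → ZMod p => val i x c)
      (fun c => ch (val i' x' c)) (dd i 0 1) 1 one_ne_zero ?_ ?_
    · intro c t
      rw [val_dd hg]
      ring
    · intro c t
      rw [val_dd_ne i i' (Ne.symm hi)]

section ext2
variable {E : Type} [Field E] [Fintype E] [DecidableEq E] [Algebra (ZMod p) E]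

/-- Outside the prime field the values are uniform. -/
theorem EM_out (h5 : 5 ≤ p) (hc : Fintype.card E = p ^ 2) (hg : ∀ i, 1 ≤ g i) (i : Fin k) (z : E)
    (hz : z ∉ Set.range (algebraMap (ZMod p) E)) :
    EM p (fun c : Idx g → ZMod p => ch2 (val2 i z c)) = 0 := by
  classical
  have hp0 : (0 : ℝ) < p := p_pos'
  have h1 := EM_dir (dd (g := g) i 1 0) (fun c : Idx g → ZMod p => ch2 (val2 i z c))
  have h2 := EM_dir (dd (g := g) i 0 1) (fun c : Idx g → ZMod p =>
    ∑ t : ZMod p, ch2 (val2 i z (c + t • dd i 1 0)))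
  have h3 : (fun c : Idx g → ZMod p => ∑ s : ZMod p, ∑ t : ZMod p,
      ch2 (val2 i z (c + s • dd i 0 1 + t • dd i 1 0))) = fun _ => 0 := by
    funext c
    rw [Finset.sum_comm]
    rw [← sum_aux h5 hc z hz (val2 i z c)]
    refine Finset.sum_congr rfl fun t _ => Finset.sum_congr rfl fun s _ => ?_
    rw [val2_dd hg, val2_dd hg, map_one, map_zero]
    congr 1
    ring
  rw [h3, EM_const', ← h1] at h2
  have h4 : (p : ℝ) * p ≠ 0 := by positivity
  have h5' : (p : ℝ) * p * EM p (fun c : Idx g → ZMod p => ch2 (val2 i z c)) = 0 := by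
    rw [mul_assoc]; exact h2
  exact (mul_eq_zero.1 h5').resolve_left h4

/-- The mean values of the character sums over the field with `p²` elements. -/
theorem EM_sum2 (h5 : 5 ≤ p) (hc : Fintype.card E = p ^ 2) (hg : ∀ i, 1 ≤ g i) (i : Fin k) :
    |EM p (fun c : Idx g → ZMod p => ∑ z : E, ch2 (val2 i z c)) - p| ≤ 1 := by
  classical
  have hp0 : (0 : ℝ) < p := p_pos'
  rw [EM_fsum]
  have e2 : ∑ z : E, EM p (fun c : Idx g → ZMod p => ch2 (val2 i z c)) =
      ∑ x : ZMod p, EM p (fun c : Idx g → ZMod p => ch (val i x c) * ch (val i x c)) := by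
    have hinj : Function.Injective (algebraMap (ZMod p) E) := (algebraMap (ZMod p) E).injective
    rw [← Finset.sum_subset (Finset.subset_univ (Finset.univ.image (algebraMap (ZMod p) E)))]
    · rw [Finset.sum_image fun a _ b _ h => hinj h]
      refine Finset.sum_congr rfl fun x _ => ?_
      congr 1
      funext c
      rw [val2_base, ch2_base h5 hc]
      ring
    · intro z _ hz
      refine EM_out h5 hc hg i z ?_
      rintro ⟨x, hx⟩
      exact hz (Finset.mem_image.2 ⟨x, Finset.mem_univ _, hx⟩)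
  rw [e2]
  have e3 : ∀ x : ZMod p, |EM p (fun c : Idx g → ZMod p => ch (val i x c) * ch (val i x c)) - 1| ≤
      1 / p := by
    intro x
    refine EM_chi_sq (fun c : Idx g → ZMod p => val i x c) (dd i 0 1) 1 one_ne_zero ?_
    intro c t
    rw [val_dd hg]
    ring
  have e4 : (∑ x : ZMod p, EM p (fun c : Idx g → ZMod p => ch (val i x c) * ch (val i x c))) - p =
      ∑ x : ZMod p, (EM p (fun c : Idx g → ZMod p => ch (val i x c) * ch (val i x c)) - 1) := by
    rw [Finset.sum_sub_distrib, Finset.sum_const, Finset.card_univ, ZMod.card, nsmul_eq_mul,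
      mul_one]
  rw [e4]
  refine (Finset.abs_sum_le_sum_abs _ _).trans ((Finset.sum_le_sum fun x _ => e3 x).trans ?_)
  rw [Finset.sum_const, Finset.card_univ, ZMod.card, nsmul_eq_mul]
  refine le_of_eq ?_
  field_simp

end ext2

/-- The mean values of the traces of the squares of the Frobenius. -/
theorem EM_tr2 (h5 : 5 ≤ p) (hg : ∀ i, 1 ≤ g i) (i : Fin k) :
    |EM p (fun c : Idx g → ZMod p => tr2 p (fun j => c ⟨i, j⟩)) + p| ≤ 1 := by
  classical
  let _ : Fintype (GaloisField p 2) := Fintype.ofFinite _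
  have hc : Fintype.card (GaloisField p 2) = p ^ 2 := by
    rw [← Nat.card_eq_fintype_card, GaloisField.card p 2 two_ne_zero]
  have e1 : (fun c : Idx g → ZMod p => tr2 p (fun j => c ⟨i, j⟩)) =
      fun c => (-1) * ∑ z : GaloisField p 2, ch2 (val2 i z c) := by
    funext c
    unfold tr2
    rw [aff_eq (ringChar_GF (GaloisField p 2) h5), hc]
    unfold ch2 val2
    push_cast
    ring
  rw [e1, EM_mul']
  have h := EM_sum2 h5 hc hg i
  have e2 : -1 * EM p (fun c : Idx g → ZMod p => ∑ z : GaloisField p 2, ch2 (val2 i z c)) + p =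
      -(EM p (fun c : Idx g → ZMod p => ∑ z : GaloisField p 2, ch2 (val2 i z c)) - p) := by ring
  rw [e2, abs_neg]
  exact h

/-! ### Weil's bounds -/

theorem odd_poly {F : Type} [Field F] (G : ℕ) (c : Fin (2 * G + 1) → F) :
    (poly c).natDegree = 2 * G + 1 := by
  unfold poly
  have h : (∑ j : Fin (2 * G + 1), C (c j) * X ^ (j : ℕ)).degree <
      ((2 * G + 1 : ℕ) : WithBot ℕ) := by
    refine (Polynomial.degree_sum_le _ _).trans_lt ?_
    rw [Finset.sup_lt_iff (WithBot.bot_lt_coe _)]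
    intro j _
    refine (Polynomial.degree_C_mul_X_pow_le _ _).trans_lt ?_
    exact_mod_cast j.2
  refine Polynomial.natDegree_eq_of_degree_eq_some ?_
  rw [Polynomial.degree_add_eq_left_of_degree_lt (by rw [Polynomial.degree_X_pow]; exact h),
    Polynomial.degree_X_pow]

theorem tr1_le (h5 : 5 ≤ p) (G : ℕ) (c : Fin (2 * G + 1) → ZMod p) :
    |tr1 p c| ≤ 2 * G * √(p : ℝ) := by
  have h := Pool.Agent.H126T.trace_bound (char_ne (six_ne (p := p) h5)).2.2 (poly c)
    (by rw [odd_poly]; exact ⟨G, rfl⟩) 1 one_ne_zero 1 one_ne_zero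
  rw [odd_poly, Pool.Agent.H126T.affPts_eq (poly c) 1 1 (ZMod p) (by rw [pow_one]), pow_one,
    pow_one, Nat.card_zmod] at h
  have e1 : Nat.card {P : ZMod p × ZMod p //
      algebraMap (ZMod p) (ZMod p) 1 * P.2 ^ 2 = aeval P.1 (poly c)} = aff (ZMod p) c := by
    unfold aff
    congr 1
    have : (fun P : ZMod p × ZMod p =>
      algebraMap (ZMod p) (ZMod p) 1 * P.2 ^ 2 = aeval P.1 (poly c)) =
      fun P => P.2 ^ 2 = P.1 ^ (2 * G + 1) + ∑ j : Fin (2 * G + 1), c j * P.1 ^ (j : ℕ) := by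
      funext P
      unfold poly
      simp [Polynomial.eval_finsetSum]
    rw [this]
  rw [e1] at h
  unfold tr1
  push_cast at h
  have e2 : (p : ℝ) + 1 - ((aff (ZMod p) c : ℝ) + 1) = p - aff (ZMod p) c := by ring
  rw [e2] at h
  refine h.trans (le_of_eq ?_)
  ring

theorem tr2_le (h5 : 5 ≤ p) (G : ℕ) (c : Fin (2 * G + 1) → ZMod p) :
    |tr2 p c| ≤ 2 * G * p := by
  have h := Pool.Agent.H126T.trace_bound (char_ne (six_ne (p := p) h5)).2.2 (poly c)
    (by rw [odd_poly]; exact ⟨G, rfl⟩) 1 one_ne_zero 2 two_ne_zero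
  rw [odd_poly, Pool.Agent.H126T.affPts_eq (poly c) 1 2 (GaloisField p 2) (by
    rw [GaloisField.card p 2 two_ne_zero, Nat.card_zmod]), Nat.card_zmod] at h
  have e1 : Nat.card {P : GaloisField p 2 × GaloisField p 2 //
      algebraMap (ZMod p) (GaloisField p 2) 1 * P.2 ^ 2 = aeval P.1 (poly c)} =
      aff (GaloisField p 2) (fun j => algebraMap (ZMod p) (GaloisField p 2) (c j)) := by
    unfold aff
    congr 1
    have : (fun P : GaloisField p 2 × GaloisField p 2 =>
      algebraMap (ZMod p) (GaloisField p 2) 1 * P.2 ^ 2 = aeval P.1 (poly c)) =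
      fun P => P.2 ^ 2 = P.1 ^ (2 * G + 1) + ∑ j : Fin (2 * G + 1),
        algebraMap (ZMod p) (GaloisField p 2) (c j) * P.1 ^ (j : ℕ) := by
      funext P
      unfold poly
      simp only [map_one, one_mul, map_add, map_pow, aeval_X, map_sum, map_mul, aeval_C]
    rw [this]
  rw [e1] at h
  unfold tr2
  push_cast at h
  have e2 : (p : ℝ) ^ 2 + 1 - ((aff (GaloisField p 2) (fun j =>
      algebraMap (ZMod p) (GaloisField p 2) (c j)) : ℝ) + 1) = (p : ℝ) ^ 2 -
      aff (GaloisField p 2) (fun j => algebraMap (ZMod p) (GaloisField p 2) (c j)) := by ring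
  rw [e2, Real.sqrt_sq (Nat.cast_nonneg _)] at h
  refine h.trans (le_of_eq ?_)
  ring

/-! ### The traces on `H²` -/

theorem rk_eq (ν : Fin k → ℕ) : rk ν = (∑ i, (ν i : ℝ) ^ 2 + ∑ i, (ν i : ℝ)) / 2 := by
  unfold rk
  rw [← Finset.sum_add_distrib, Finset.sum_div]
  exact Finset.sum_congr rfl fun i _ => by ring

theorem rk_nonneg (ν : Fin k → ℕ) : 0 ≤ rk ν := by
  unfold rk
  positivity

/-- **The mean value of the trace on `H²`.** -/
theorem mean_trH2 (h5 : 5 ≤ p) (hg : ∀ i, 1 ≤ g i) (ν : Fin k → ℕ) :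
    |EM p (fun c : Idx g → ZMod p => trH2 ν p c - rk ν * p)| ≤ rk ν := by
  have hp0 : (0 : ℝ) < p := p_pos'
  have e1 : (fun c : Idx g → ZMod p => trH2 ν p c - rk ν * p) = fun c =>
      (1 / 2 : ℝ) * (∑ i, ∑ i', ((ν i : ℝ) * ν i') *
        (tr1 p (fun j => c ⟨i, j⟩) * tr1 p (fun j => c ⟨i', j⟩))) +
      ((-1 / 2 : ℝ) * (∑ i, (ν i : ℝ) * tr2 p (fun j => c ⟨i, j⟩)) + (-(rk ν * p))) := by
    funext c
    unfold trH2
    have : (∑ i, (ν i : ℝ) * tr1 p (fun j => c ⟨i, j⟩)) ^ 2 =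
        ∑ i, ∑ i', ((ν i : ℝ) * ν i') *
          (tr1 p (fun j => c ⟨i, j⟩) * tr1 p (fun j => c ⟨i', j⟩)) := by
      rw [pow_two, Finset.sum_mul_sum]
      exact Finset.sum_congr rfl fun i _ => Finset.sum_congr rfl fun i' _ => by ring
    rw [this]
    ring
  rw [e1, EM_add', EM_add', EM_mul', EM_mul', EM_const', EM_fsum, EM_fsum]
  simp only [EM_fsum, EM_mul']
  have h1 : |(∑ i, ∑ i', ((ν i : ℝ) * ν i') * EM p (fun c : Idx g → ZMod p =>
      tr1 p (fun j => c ⟨i, j⟩) * tr1 p (fun j => c ⟨i', j⟩))) - (∑ i, (ν i : ℝ) ^ 2) * p| ≤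
      ∑ i, (ν i : ℝ) ^ 2 := by
    have e2 : (∑ i, (ν i : ℝ) ^ 2) * p = ∑ i, ∑ i', ((ν i : ℝ) * ν i') *
        (if i = i' then (p : ℝ) else 0) := by
      rw [Finset.sum_mul]
      refine Finset.sum_congr rfl fun i _ => ?_
      simp only [mul_ite, mul_zero, Finset.sum_ite_eq, Finset.mem_univ, if_true]
      ring
    have e3 : ∑ i, (ν i : ℝ) ^ 2 = ∑ i, ∑ i', ((ν i : ℝ) * ν i') *
        (if i = i' then (1 : ℝ) else 0) := by
      refine Finset.sum_congr rfl fun i _ => ?_
      simp only [mul_ite, mul_zero, Finset.sum_ite_eq, Finset.mem_univ, if_true]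
      ring
    rw [e2, e3, ← Finset.sum_sub_distrib]
    refine (Finset.abs_sum_le_sum_abs _ _).trans (Finset.sum_le_sum fun i _ => ?_)
    rw [← Finset.sum_sub_distrib]
    refine (Finset.abs_sum_le_sum_abs _ _).trans (Finset.sum_le_sum fun i' _ => ?_)
    rw [← mul_sub, abs_mul, abs_of_nonneg (by positivity : (0 : ℝ) ≤ (ν i : ℝ) * ν i')]
    exact mul_le_mul_of_nonneg_left (EM_tr1 h5 hg i i') (by positivity)
  have h2 : |(∑ i, (ν i : ℝ) * EM p (fun c : Idx g → ZMod p => tr2 p (fun j => c ⟨i, j⟩))) +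
      (∑ i, (ν i : ℝ)) * p| ≤ ∑ i, (ν i : ℝ) := by
    rw [Finset.sum_mul, ← Finset.sum_add_distrib]
    refine (Finset.abs_sum_le_sum_abs _ _).trans (Finset.sum_le_sum fun i _ => ?_)
    rw [← mul_add, abs_mul, abs_of_nonneg (by positivity : (0 : ℝ) ≤ (ν i : ℝ))]
    exact (mul_le_mul_of_nonneg_left (EM_tr2 h5 hg i) (by positivity)).trans (by rw [mul_one])
  rw [rk_eq]
  have h3 := abs_le.1 h1
  have h4 := abs_le.1 h2
  rw [abs_le]
  constructor <;> nlinarith [h3.1, h3.2, h4.1, h4.2]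

/-- The constant in the second moment. -/
noncomputable def KG (g : Fin k → ℕ) (ν : Fin k → ℕ) : ℝ :=
  ((∑ i, (ν i : ℝ) * (2 * g i)) ^ 2 + ∑ i, (ν i : ℝ) * (2 * g i)) / 2 + rk ν

theorem KG_nonneg (ν : Fin k → ℕ) : 0 ≤ KG g ν := by
  unfold KG
  have := rk_nonneg ν
  positivity

theorem trH2_le (h5 : 5 ≤ p) (ν : Fin k → ℕ) (c : Idx g → ZMod p) :
    |trH2 ν p c - rk ν * p| ≤ KG g ν * p := by
  have hp0 : (0 : ℝ) < p := p_pos'
  have h1 : |∑ i, (ν i : ℝ) * tr1 p (fun j => c ⟨i, j⟩)| ≤ (∑ i, (ν i : ℝ) * (2 * g i)) * √p := by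
    rw [Finset.sum_mul]
    refine (Finset.abs_sum_le_sum_abs _ _).trans (Finset.sum_le_sum fun i _ => ?_)
    rw [abs_mul, abs_of_nonneg (by positivity : (0 : ℝ) ≤ (ν i : ℝ)), mul_assoc]
    exact mul_le_mul_of_nonneg_left (tr1_le h5 (g i) _) (by positivity)
  have h2 : |∑ i, (ν i : ℝ) * tr2 p (fun j => c ⟨i, j⟩)| ≤ (∑ i, (ν i : ℝ) * (2 * g i)) * p := by
    rw [Finset.sum_mul]
    refine (Finset.abs_sum_le_sum_abs _ _).trans (Finset.sum_le_sum fun i _ => ?_)
    rw [abs_mul, abs_of_nonneg (by positivity : (0 : ℝ) ≤ (ν i : ℝ)), mul_assoc]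
    exact mul_le_mul_of_nonneg_left (tr2_le h5 (g i) _) (by positivity)
  have h3 : (∑ i, (ν i : ℝ) * tr1 p (fun j => c ⟨i, j⟩)) ^ 2 ≤
      (∑ i, (ν i : ℝ) * (2 * g i)) ^ 2 * p := by
    rw [← sq_abs]
    calc _ ≤ ((∑ i, (ν i : ℝ) * (2 * g i)) * √p) ^ 2 := by gcongr
      _ = _ := by rw [mul_pow, Real.sq_sqrt hp0.le]
  have h4 : 0 ≤ (∑ i, (ν i : ℝ) * tr1 p (fun j => c ⟨i, j⟩)) ^ 2 := sq_nonneg _
  have h5' := abs_le.1 h2
  have hr := rk_nonneg ν
  have h6 : 0 ≤ rk ν * p := by positivity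
  unfold trH2 KG
  rw [abs_le]
  constructor <;> nlinarith [h5'.1, h5'.2]

/-- **The second moment.** -/
theorem sq_trH2 (h5 : 5 ≤ p) (ν : Fin k → ℕ) :
    EM p (fun c : Idx g → ZMod p => (trH2 ν p c - rk ν * p) ^ 2) ≤ KG g ν ^ 2 * (p : ℝ) ^ 2 := by
  refine (EM_mono' p _ (fun _ => KG g ν ^ 2 * (p : ℝ) ^ 2) fun c => ?_).trans
    (le_of_eq (EM_const' p _))
  rw [← sq_abs, ← mul_pow]
  exact pow_le_pow_left₀ (abs_nonneg _) (trH2_le h5 ν c) 2

end

end Pool.Agent.K7.H53.JA
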